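import Mathlib

/-!
Trees of maximum degree at most 6 can have exponential domination number polynomially smaller
than `n / log n`: in the complete 5-ary tree of depth `h`, any `4 ^ h` leaves form an
exponential dominating set.
-/

namespace Pool.Agent.Results.MP_75fda7_co.TreeSublinear

open SimpleGraph

/-- A walk from `x` to `y` that is admissible for `S`: it is a path, exactly one of its
endvertices lies in `S` (for `x = y` the only path is the trivial one, with its single
endvertex in `S`), and no internal vertex lies in `S`. -/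
def Admissible {V : Type} {G : SimpleGraph V} (S : Finset V) {x y : V} (p : G.Walk x y) : Prop :=
  p.IsPath ∧ ((x = y ∧ x ∈ S) ∨ (x ∈ S ∧ y ∉ S) ∨ (x ∉ S ∧ y ∈ S)) ∧
    ∀ z ∈ p.support, z ≠ x → z ≠ y → z ∉ S

/-- The distance `dist_(G,S)(x, y)`: least length of an admissible path, `⊤` if there is
none. -/
noncomputable def sdist {V : Type} (G : SimpleGraph V) (S : Finset V) (x y : V) : ℕ∞ :=
  sInf {n | ∃ p : G.Walk x y, Admissible S p ∧ n = (p.length : ℕ∞)}

/-- The contribution `(1/2) ^ (d - 1)` of a vertex at distance `d`, with `(1/2) ^ ∞ = 0`. -/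
noncomputable def contribution (d : ℕ∞) : ℝ := if d = ⊤ then 0 else 2 * (1 / 2 : ℝ) ^ d.toNat

/-- The weight `w_(G,S)(x)`. -/
noncomputable def weight {V : Type} (G : SimpleGraph V) (S : Finset V) (x : V) : ℝ :=
  ∑ v ∈ S, contribution (sdist G S x v)

/-- `S` is an exponential dominating set of `G`. -/
def IsExpDominating {V : Type} (G : SimpleGraph V) (S : Finset V) : Prop :=
  ∀ x, 1 ≤ weight G S x

/-- The exponential domination number. -/
noncomputable def gammaE {V : Type} (G : SimpleGraph V) : ℕ :=
  sInf {k | ∃ S : Finset V, IsExpDominating G S ∧ S.card = k}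

theorem contribution_nonneg (d : ℕ∞) : 0 ≤ contribution d := by
  unfold contribution
  split_ifs
  · exact le_refl _
  · positivity

theorem contribution_ge {d : ℕ∞} {n : ℕ} (h : d ≤ n) : 2 * (1 / 2 : ℝ) ^ n ≤ contribution d := by
  have hd : d ≠ ⊤ := ne_top_of_le_ne_top (ENat.coe_ne_top n) h
  unfold contribution
  rw [if_neg hd]
  have h1 : d.toNat ≤ n := by
    have := ENat.toNat_le_toNat h (ENat.coe_ne_top n)
    simpa using this
  have h2 : (1 / 2 : ℝ) ^ n ≤ (1 / 2 : ℝ) ^ d.toNat :=
    pow_le_pow_of_le_one (by norm_num) (by norm_num) h1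
  linarith

theorem sdist_le {V : Type} {G : SimpleGraph V} {S : Finset V} {x y : V} (p : G.Walk x y)
    (hp : Admissible S p) : sdist G S x y ≤ (p.length : ℕ∞) :=
  sInf_le ⟨p, hp, rfl⟩

/-- An internal vertex of a path has two distinct neighbours. -/
theorem internal_two_nbrs {V : Type} {G : SimpleGraph V} {u v : V} (p : G.Walk u v)
    (hp : p.IsPath) (x : V) (hx : x ∈ p.support) (hu : x ≠ u) (hv : x ≠ v) :
    ∃ y z, y ≠ z ∧ G.Adj x y ∧ G.Adj x z := by
  induction p with
  | nil =>
    rw [Walk.support_nil, List.mem_singleton] at hx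
    exact absurd hx hu
  | @cons u w v h q ih =>
    rw [Walk.cons_isPath_iff] at hp
    rw [Walk.support_cons, List.mem_cons] at hx
    have hx' : x ∈ q.support := hx.resolve_left hu
    by_cases hxw : x = w
    · subst hxw
      cases q with
      | nil => exact absurd rfl hv
      | @cons _ w' _ h' q' =>
        refine ⟨u, w', ?_, h.symm, h'⟩
        rintro rfl
        apply hp.2
        rw [Walk.support_cons, List.mem_cons]
        exact Or.inr q'.start_mem_support
    · exact ih hp.1 hx' hxw hv

/-- The vertices of the complete 5-ary tree of depth `h`. -/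
abbrev W (h : ℕ) : Type := {l : List (Fin 5) // l.length ≤ h}

/-- The complete 5-ary tree of depth `h`. -/
def T (h : ℕ) : SimpleGraph (W h) where
  Adj x y := (∃ a, x.1 = a :: y.1) ∨ ∃ a, y.1 = a :: x.1
  symm := ⟨fun _ _ h => h.symm⟩
  loopless := ⟨by
    rintro x (⟨a, h⟩ | ⟨a, h⟩) <;>
    · have := congrArg List.length h
      simp at this⟩

instance (h : ℕ) : Finite (W h) := List.finite_length_le (Fin 5) h

/-- The root. -/
def root (h : ℕ) : W h := ⟨[], Nat.zero_le _⟩

/-- The parent of a vertex (the root is its own parent here). -/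
def parent {h : ℕ} (x : W h) : W h := ⟨x.1.tail, by
  have := x.2; rw [List.length_tail]; omega⟩

theorem adj_parent {h : ℕ} (x : W h) (hx : x ≠ root h) : (T h).Adj x (parent x) := by
  rcases x with ⟨l, hl⟩
  cases l with
  | nil => exact absurd rfl hx
  | cons a l => exact Or.inl ⟨a, rfl⟩

theorem walk_root {h : ℕ} : ∀ (n : ℕ) (x : W h), x.1.length = n →
    ∃ p : (T h).Walk x (root h), p.length = n := by
  intro n
  induction n with
  | zero =>
    intro x hx
    have : x = root h := Subtype.ext (List.length_eq_zero_iff.mp hx)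
    subst this
    exact ⟨Walk.nil, rfl⟩
  | succ n ih =>
    intro x hx
    have hne : x ≠ root h := by
      rintro rfl
      simp [root] at hx
    obtain ⟨p, hp⟩ := ih (parent x) (by
      show x.1.tail.length = n
      rw [List.length_tail, hx]; rfl)
    exact ⟨Walk.cons (adj_parent x hne) p, by rw [Walk.length_cons, hp]⟩

theorem T_connected (h : ℕ) : (T h).Connected := by
  have : Nonempty (W h) := ⟨root h⟩
  have key : ∀ x : W h, (T h).Reachable x (root h) := by
    intro x
    obtain ⟨p, -⟩ := walk_root _ x rfl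
    exact ⟨p⟩
  exact SimpleGraph.Connected.mk (fun u v => (key u).trans (key v).symm)

theorem T_dist {h : ℕ} (x y : W h) : (T h).dist x y ≤ 2 * h := by
  obtain ⟨p, hp⟩ := walk_root _ x rfl
  obtain ⟨q, hq⟩ := walk_root _ y rfl
  have h1 : (T h).dist x y ≤ (p.append q.reverse).length := dist_le _
  rw [Walk.length_append, Walk.length_reverse, hp, hq] at h1
  have := x.2
  have := y.2
  omega

theorem T_tree (h : ℕ) : (T h).IsTree := by
  rw [isTree_iff_connected_and_card]
  refine ⟨T_connected h, le_antisymm ?_ (T_connected h).card_vert_le_card_edgeSet_add_one⟩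
  -- every edge joins a nonroot vertex to its parent
  have hsurj : Function.Surjective
      (fun x : {x : W h // x ≠ root h} =>
        (⟨s(x.1, parent x.1), adj_parent x.1 x.2⟩ : (T h).edgeSet)) := by
    rintro ⟨e, he⟩
    induction e using Sym2.ind with
    | _ x y =>
      rw [mem_edgeSet] at he
      rcases he with ⟨a, ha⟩ | ⟨a, ha⟩
      · refine ⟨⟨x, ?_⟩, ?_⟩
        · rintro rfl
          simp [root] at ha
        · apply Subtype.ext
          show s(x, parent x) = s(x, y)
          have : parent x = y := Subtype.ext (by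
            show x.1.tail = y.1
            rw [ha]; rfl)
          rw [this]
      · refine ⟨⟨y, ?_⟩, ?_⟩
        · rintro rfl
          simp [root] at ha
        · apply Subtype.ext
          show s(y, parent y) = s(x, y)
          have : parent y = x := Subtype.ext (by
            show y.1.tail = x.1
            rw [ha]; rfl)
          rw [this, Sym2.eq_swap]
  have h1 : Nat.card (T h).edgeSet ≤ Nat.card {x : W h // x ≠ root h} :=
    Nat.card_le_card_of_surjective _ hsurj
  have h2 : Nat.card {x : W h // x ≠ root h} + 1 = Nat.card (W h) := by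
    classical
    have := Fintype.ofFinite (W h)
    rw [Nat.card_eq_fintype_card, Nat.card_eq_fintype_card]
    have h3 : Fintype.card {x : W h // ¬ x = root h} = Fintype.card (W h) -
        Fintype.card {x : W h // x = root h} := Fintype.card_subtype_compl _
    rw [Fintype.card_subtype_eq] at h3
    have h4 : 0 < Fintype.card (W h) := Fintype.card_pos_iff.mpr ⟨root h⟩
    have h5 : Fintype.card {x : W h // x ≠ root h} = Fintype.card {x : W h // ¬ x = root h} :=
      Fintype.card_congr (Equiv.refl _)
    omega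
  omega

theorem T_degree {h : ℕ} (x : W h) : ((T h).neighborSet x).ncard ≤ 6 := by
  classical
  have hsub : (Subtype.val '' (T h).neighborSet x) ⊆
      ((insert x.1.tail (Finset.univ.image (fun a : Fin 5 => a :: x.1)) :
        Finset (List (Fin 5))) : Set (List (Fin 5))) := by
    rintro _ ⟨y, hy, rfl⟩
    rw [Finset.coe_insert, Set.mem_insert_iff]
    rcases hy with ⟨a, ha⟩ | ⟨a, ha⟩
    · left; rw [ha]; rfl
    · right
      rw [ha]
      simp
  have h1 : ((T h).neighborSet x).ncard = (Subtype.val '' (T h).neighborSet x).ncard :=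
    (Set.ncard_image_of_injective _ Subtype.val_injective).symm
  rw [h1]
  have h2 := Set.ncard_le_ncard hsub (Finset.finite_toSet _)
  rw [Set.ncard_coe_finset] at h2
  refine h2.trans ?_
  refine (Finset.card_insert_le _ _).trans ?_
  have h3 : (Finset.univ.image (fun a : Fin 5 => a :: x.1)).card ≤ 5 := by
    refine Finset.card_image_le.trans ?_
    simp
  omega

/-- A leaf has only one neighbour. -/
theorem leaf_nbr {h : ℕ} (x y : W h) (hx : x.1.length = h) (hxy : (T h).Adj x y) :
    y = parent x := by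
  rcases hxy with ⟨a, ha⟩ | ⟨a, ha⟩
  · apply Subtype.ext
    show y.1 = x.1.tail
    rw [ha]; rfl
  · have h1 := y.2
    rw [ha, List.length_cons] at h1
    omega

/-- The leaf given by a word over `Fin 4`. -/
def leaf (h : ℕ) (f : Fin h → Fin 4) : W h := ⟨List.ofFn (fun i => (f i).castSucc), by simp⟩

theorem leaf_inj (h : ℕ) : Function.Injective (leaf h) := by
  intro f g hfg
  have h1 : List.ofFn (fun i => (f i).castSucc) = List.ofFn (fun i => (g i).castSucc) :=
    congrArg Subtype.val hfg
  have h2 := List.ofFn_injective h1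
  funext i
  exact Fin.castSucc_injective _ (congrFun h2 i)

/-- The exponential dominating set. -/
noncomputable def S (h : ℕ) : Finset (W h) :=
  Finset.univ.map ⟨leaf h, leaf_inj h⟩

theorem S_card (h : ℕ) : (S h).card = 4 ^ h := by
  unfold S
  rw [Finset.card_map, Finset.card_univ, Fintype.card_fun, Fintype.card_fin, Fintype.card_fin]

theorem S_leaf {h : ℕ} {x : W h} (hx : x ∈ S h) : x.1.length = h := by
  unfold S at hx
  rw [Finset.mem_map] at hx
  obtain ⟨f, -, rfl⟩ := hx
  show (List.ofFn (fun i => (f i).castSucc)).length = h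
  simp

theorem S_dom (h : ℕ) : IsExpDominating (T h) (S h) := by
  intro x
  unfold weight
  by_cases hx : x ∈ S h
  · have h1 : contribution (sdist (T h) (S h) x x) ≤
        ∑ v ∈ S h, contribution (sdist (T h) (S h) x v) :=
      Finset.single_le_sum (f := fun v => contribution (sdist (T h) (S h) x v))
        (fun _ _ => contribution_nonneg _) hx
    have h2 : sdist (T h) (S h) x x ≤ ((0 : ℕ) : ℕ∞) := by
      refine sdist_le (Walk.nil : (T h).Walk x x) ⟨Walk.IsPath.nil, Or.inl ⟨rfl, hx⟩, ?_⟩
      intro z hz hzx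
      rw [Walk.support_nil, List.mem_singleton] at hz
      exact absurd hz hzx
    have h3 := contribution_ge h2
    norm_num at h3
    linarith
  · have h1 : ∀ v ∈ S h, 2 * (1 / 2 : ℝ) ^ (2 * h) ≤
        contribution (sdist (T h) (S h) x v) := by
      intro v hv
      obtain ⟨p, hp, hl⟩ := (T_connected h).exists_path_of_dist x v
      apply contribution_ge
      refine (sdist_le p ⟨hp, Or.inr (Or.inr ⟨hx, hv⟩), ?_⟩).trans ?_
      · intro z hz hzx hzv hzS
        obtain ⟨y, y', hne, hy, hy'⟩ := internal_two_nbrs p hp z hz hzx hzv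
        have hzl := S_leaf hzS
        exact hne ((leaf_nbr z y hzl hy).trans (leaf_nbr z y' hzl hy').symm)
      · rw [hl]
        exact_mod_cast T_dist x v
    have h2 := Finset.sum_le_sum h1
    rw [Finset.sum_const, S_card] at h2
    have h3 : (4 ^ h : ℕ) • (2 * (1 / 2 : ℝ) ^ (2 * h)) = 2 := by
      rw [nsmul_eq_mul, pow_mul]
      push_cast
      have : (4 : ℝ) ^ h * ((1 / 2 : ℝ) ^ 2) ^ h = 1 := by
        rw [← mul_pow]; norm_num
      linarith
    rw [h3] at h2
    linarith

theorem card_lower (h : ℕ) : 5 ^ h ≤ Nat.card (W h) := by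
  classical
  have h1 : Nat.card (Fin h → Fin 5) ≤ Nat.card (W h) := by
    apply Nat.card_le_card_of_injective (fun f : Fin h → Fin 5 => (⟨List.ofFn f, by simp⟩ : W h))
    intro f g hfg
    exact List.ofFn_injective (congrArg Subtype.val hfg)
  rw [Nat.card_eq_fintype_card, Fintype.card_fun, Fintype.card_fin, Fintype.card_fin] at h1
  exact h1

theorem card_upper (h : ℕ) : Nat.card (W h) ≤ (h + 1) * 5 ^ h := by
  classical
  have h1 : Nat.card (W h) ≤ Nat.card (Fin (h + 1) × (Fin h → Fin 5)) := by
    apply Nat.card_le_card_of_injective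
      (fun x : W h => ((⟨x.1.length, by have := x.2; omega⟩ : Fin (h + 1)),
        fun i : Fin h => x.1.getD i.val 0))
    rintro ⟨l, hl⟩ ⟨m, hm⟩ hlm
    rw [Prod.mk.injEq] at hlm
    obtain ⟨e1, e2⟩ := hlm
    have e1' : l.length = m.length := by simpa using e1
    apply Subtype.ext
    show l = m
    apply List.ext_getElem e1'
    intro i hi hi'
    have e3 := congrFun e2 ⟨i, lt_of_lt_of_le hi hl⟩
    simp only at e3
    rw [List.getD_eq_getElem _ _ hi, List.getD_eq_getElem _ _ hi'] at e3
    exact e3
  rw [Nat.card_eq_fintype_card (α := Fin (h + 1) × (Fin h → Fin 5)), Fintype.card_prod,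
    Fintype.card_fun, Fintype.card_fin, Fintype.card_fin, Fintype.card_fin] at h1
  exact h1

theorem gammaE_le (h : ℕ) : gammaE (T h) ≤ 4 ^ h :=
  Nat.sInf_le ⟨S h, S_dom h, S_card h⟩

theorem result : ¬ ∃ c : ℝ, 0 < c ∧ ∀ (V : Type) [Finite V] (G : SimpleGraph V),
    G.IsTree → (∀ v, (G.neighborSet v).ncard ≤ 6) → 2 ≤ Nat.card V →
      c * ((Nat.card V : ℝ) / Real.log (Nat.card V : ℝ)) ≤ (gammaE G : ℝ) := by
  rintro ⟨c, hc, H⟩
  have hlim : Filter.Tendsto (fun n : ℕ => (n : ℝ) * (4 / 5 : ℝ) ^ n) Filter.atTop (nhds 0) :=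
    tendsto_self_mul_const_pow_of_abs_lt_one (by rw [abs_lt]; constructor <;> norm_num)
  have hev : ∀ᶠ n : ℕ in Filter.atTop, (n : ℝ) * (4 / 5 : ℝ) ^ n < c / 5 :=
    hlim.eventually (gt_mem_nhds (by positivity))
  obtain ⟨h, hh, h1⟩ := (hev.and (Filter.eventually_ge_atTop 1)).exists
  have hn1 := card_lower h
  have hn2 := card_upper h
  have h5 : 5 ≤ 5 ^ h := by
    calc 5 = 5 ^ 1 := by norm_num
      _ ≤ 5 ^ h := Nat.pow_le_pow_right (by norm_num) h1
  have hH := H (W h) (T h) (T_tree h) T_degree (by omega)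
  have hg : (gammaE (T h) : ℝ) ≤ (4 : ℝ) ^ h := by exact_mod_cast gammaE_le h
  set n : ℝ := (Nat.card (W h) : ℝ) with hn
  have hnl : (5 : ℝ) ^ h ≤ n := by rw [hn]; exact_mod_cast hn1
  have hnu : n ≤ ((h : ℝ) + 1) * 5 ^ h := by rw [hn]; exact_mod_cast hn2
  have hn5 : (5 : ℝ) ≤ n := by
    refine le_trans ?_ hnl
    exact_mod_cast h5
  have hlogpos : 0 < Real.log n := Real.log_pos (by linarith)
  -- the logarithm is at most 5 h
  have hlog : Real.log n ≤ 5 * h := by
    have e1 : Real.log n ≤ Real.log (((h : ℝ) + 1) * 5 ^ h) :=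
      Real.log_le_log (by linarith) hnu
    have e2 : Real.log (((h : ℝ) + 1) * 5 ^ h) = Real.log ((h : ℝ) + 1) + h * Real.log 5 := by
      rw [Real.log_mul (by positivity) (by positivity), Real.log_pow]
    have e3 : Real.log ((h : ℝ) + 1) ≤ h := by
      have := Real.log_le_sub_one_of_pos (show (0 : ℝ) < (h : ℝ) + 1 by positivity)
      linarith
    have e4 : Real.log 5 ≤ 4 := by
      have := Real.log_le_sub_one_of_pos (show (0 : ℝ) < 5 by norm_num)
      linarith
    have e5 : (h : ℝ) * Real.log 5 ≤ h * 4 := mul_le_mul_of_nonneg_left e4 (by positivity)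
    linarith
  have e6 : c * (n / Real.log n) ≤ (4 : ℝ) ^ h := hH.trans hg
  have e7 : c * n ≤ (4 : ℝ) ^ h * Real.log n := by
    rw [← mul_div_assoc, div_le_iff₀ hlogpos] at e6
    exact e6
  have e8 : c * (5 : ℝ) ^ h ≤ (4 : ℝ) ^ h * (5 * h) :=
    calc c * (5 : ℝ) ^ h ≤ c * n := mul_le_mul_of_nonneg_left hnl hc.le
      _ ≤ (4 : ℝ) ^ h * Real.log n := e7
      _ ≤ (4 : ℝ) ^ h * (5 * h) := mul_le_mul_of_nonneg_left hlog (by positivity)
  rw [div_pow] at hh
  have h5pos : (0 : ℝ) < 5 ^ h := by positivity
  have e9 : (h : ℝ) * 4 ^ h < c / 5 * 5 ^ h := by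
    have := mul_lt_mul_of_pos_right hh h5pos
    calc (h : ℝ) * 4 ^ h = (h : ℝ) * (4 ^ h / 5 ^ h) * 5 ^ h := by field_simp
      _ < c / 5 * 5 ^ h := this
  linarith

end Pool.Agent.Results.MP_75fda7_co.TreeSublinear
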